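import Mathlib

/-!
# Genus one curves over `ℚ` and the regulator on `K_4`: data and known facts
-/

namespace Pool.Agent.N522.G1

/-- Genus one curves over `ℚ`, their motivic cohomology, and the regulator. -/
structure Theory where
  /-- smooth projective curves of genus one over `ℚ` -/
  Cur : Type
  /-- elliptic curves over `ℚ` up to isogeny -/
  Iso : Type
  /-- the isogeny class of the Jacobian -/
  jac : Cur → Iso
  /-- `H^2_M(C, ℚ(3))` -/
  V : Cur → Type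
  /-- group structure -/
  grp : ∀ C, AddCommGroup (V C)
  /-- `ℚ`-structure -/
  mod : ∀ C, Module ℚ (V C)
  /-- `Π(α)` for a fixed generator of `H_1(C(ℂ), ℚ)^+` -/
  per : ∀ C, V C →ₗ[ℚ] ℝ
  /-- `L'(E, -1)` -/
  L' : Iso → ℝ

attribute [instance] Theory.grp Theory.mod

variable {T : Theory}

/-- Q1 for `C` -/
def Q1 (C : T.Cur) : Prop :=
  ∀ α : T.V C, α ≠ 0 → ∃ a : ℚ, a ≠ 0 ∧ T.per C α = (a : ℝ) * T.L' (T.jac C)

/-- `H^2_M(C, ℚ(3))` has dimension one. -/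
def OneDim (C : T.Cur) : Prop := ∃ α₀ : T.V C, α₀ ≠ 0 ∧ ∀ α : T.V C, ∃ c : ℚ, α = c • α₀

/-- Known facts. -/
structure Facts (T : Theory) : Prop where
  /-- `L'(E, -1) ≠ 0` (page) -/
  L'_ne : ∀ E : T.Iso, T.L' E ≠ 0
  /-- Beilinson, modularity: each isogeny class contains a curve with an element whose regulator is a
  non-zero rational multiple of `L'(E, -1)` -/
  beilinson : ∀ E : T.Iso, ∃ (C : T.Cur) (α₀ : T.V C) (a : ℚ), T.jac C = E ∧ a ≠ 0 ∧
    T.per C α₀ = (a : ℝ) * T.L' E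
  /-- Curves whose Jacobians are isogenous have isomorphic motives `h^1`; the contributions of `h^0`
  and `h^2` to `H^2_M(C, ℚ(3))` vanish (Borel).  The regulators are compatible up to a non-zero
  rational factor. -/
  motive : ∀ C D : T.Cur, T.jac C = T.jac D → ∃ (f : T.V C ≃ₗ[ℚ] T.V D) (b : ℚ), b ≠ 0 ∧
    ∀ α : T.V C, T.per D (f α) = (b : ℝ) * T.per C α

/-- an element with the right regulator on every curve -/
theorem exists_element (F : Facts T) (C : T.Cur) : ∃ (α₀ : T.V C) (a : ℚ), a ≠ 0 ∧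
    T.per C α₀ = (a : ℝ) * T.L' (T.jac C) := by
  obtain ⟨D, α₀, a, hD, ha, h⟩ := F.beilinson (T.jac C)
  obtain ⟨f, b, hb, hf⟩ := F.motive D C hD
  refine ⟨f α₀, b * a, mul_ne_zero hb ha, ?_⟩
  rw [hf, h, Rat.cast_mul, mul_assoc]

theorem q1_iff (F : Facts T) (C : T.Cur) : Q1 C ↔ OneDim C := by
  obtain ⟨α₀, a₀, ha₀, h₀⟩ := exists_element F C
  have hne : (a₀ : ℝ) * T.L' (T.jac C) ≠ 0 :=
    mul_ne_zero (by exact_mod_cast ha₀) (F.L'_ne _)
  have hα₀ : α₀ ≠ 0 := by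
    rintro rfl
    rw [map_zero] at h₀
    exact hne h₀.symm
  constructor
  · intro h
    refine ⟨α₀, hα₀, fun α => ?_⟩
    by_cases hα : α = 0
    · exact ⟨0, by rw [hα, zero_smul]⟩
    obtain ⟨a, -, ha'⟩ := h α hα
    refine ⟨a / a₀, ?_⟩
    by_contra hcon
    have hsub : α - (a / a₀) • α₀ ≠ 0 := sub_ne_zero.mpr hcon
    obtain ⟨b, hb, hb'⟩ := h _ hsub
    rw [map_sub, map_smul, ha', h₀] at hb'
    have h1 : (a : ℝ) * T.L' (T.jac C) - ((a / a₀ : ℚ) • ((a₀ : ℝ) * T.L' (T.jac C))) = 0 := by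
      rw [Rat.smul_def, Rat.cast_div]
      have : (a₀ : ℝ) ≠ 0 := by exact_mod_cast ha₀
      field_simp
      ring
    rw [h1] at hb'
    exact (mul_ne_zero (by exact_mod_cast hb) (F.L'_ne _)) hb'.symm
  · rintro ⟨α₁, -, h₁⟩ α hα
    obtain ⟨c, rfl⟩ := h₁ α
    obtain ⟨c₀, rfl⟩ := h₁ α₀
    have hc : c ≠ 0 := fun h => hα (by rw [h, zero_smul])
    have hc₀ : c₀ ≠ 0 := fun h => hα₀ (by rw [h, zero_smul])
    refine ⟨c / c₀ * a₀, mul_ne_zero (div_ne_zero hc hc₀) ha₀, ?_⟩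
    rw [map_smul, Rat.smul_def] at h₀ ⊢
    push_cast
    have e1 : (c₀ : ℝ) ≠ 0 := by exact_mod_cast hc₀
    rw [div_mul_eq_mul_div, div_mul_eq_mul_div, eq_div_iff e1]
    linear_combination (c : ℝ) * h₀

theorem q1_isogeny (F : Facts T) (C D : T.Cur) (h : T.jac C = T.jac D) : Q1 C ↔ Q1 D := by
  have key : ∀ C D : T.Cur, T.jac C = T.jac D → Q1 C → Q1 D := by
    intro C D h hC β hβ
    obtain ⟨f, b, hb, hf⟩ := F.motive C D h
    obtain ⟨α, rfl⟩ := f.surjective β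
    obtain ⟨a, ha, ha'⟩ := hC α (fun h0 => hβ (by rw [h0, map_zero]))
    exact ⟨b * a, mul_ne_zero hb ha, by rw [hf, ha', Rat.cast_mul, mul_assoc, h]⟩
  exact ⟨key C D h, key D C h.symm⟩

end Pool.Agent.N522.G1
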